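import Pool.Agent.W910.NS.All3
import Pool.Agent.W910.NS.T_E14
import Pool.Agent.W910.NS.T_E15
import Pool.Agent.W910.NS.T_E16
import Pool.Agent.W910.NS.T_E17

/-!
# Normal spanning trees: when do obstructions of size `ℵ₁` suffice?

Every connected graph without a normal spanning tree contains, as a minor with countable branch
sets, an `(ℵ₀, ℵ₁)`-graph or an `(ω₁, S)`-graph for some stationary `S ⊆ ω₁`, if and only if the
Fodor-type Reflection Principle holds; and this equivalence holds level by level.
The definitions used are those of `Pool.Agent.W910.NS.Off`.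
-/

set_option autoImplicit false

namespace Pool.Agent.Results.MP_783f50_lc.AlephOneMinors

open Pool.Agent.W910.NS
open Cardinal

universe u

theorem disj : S_disj.{u} := T_E14.main T_O2.reg All2.ess

theorem refl : S_refl.{u} := T_E15.main T_O2.reg All3.tr disj All2.lgNT All2.noObs

theorem back : S_back.{u} := T_E16.main T_O2.reg T_O1.press T_O1.split T_O1.unb

theorem conv2 : S_conv2.{u} :=
  T_E17.main T_O2.reg T_O2.stat T_O1.inter All3.code2 All2.lgConn All2.lgNo All2.toNT refl back

theorem result :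
    ((∀ (V : Type u) (G : SimpleGraph V), G.Connected →
        HasNormalSpanningTree G ∨ SmallObstruction G) ↔ FRP.{u}) ∧
    ∀ θ : Cardinal.{u},
      (∀ (V : Type u) (G : SimpleGraph V), #V ≤ θ → G.Connected →
        HasNormalSpanningTree G ∨ SmallObstruction G) ↔
      ∀ κ : Cardinal.{u}, κ.IsRegular → ℵ₁ < κ → κ ≤ θ → FRPAt κ := by
  have key : ∀ θ : Cardinal.{u},
      (∀ (V : Type u) (G : SimpleGraph V), #V ≤ θ → G.Connected →
        HasNormalSpanningTree G ∨ SmallObstruction G) ↔
      ∀ κ : Cardinal.{u}, κ.IsRegular → ℵ₁ < κ → κ ≤ θ → FRPAt κ := fun θ =>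
    ⟨fun h κ hκ h1 hle => conv2 κ hκ h1 (All3.mono hle h), fun h => All3.frpUpTo θ h⟩
  refine ⟨⟨fun h κ hκ h1 => (key κ).1 (fun V G _ hG => h V G hG) κ hκ h1 le_rfl, fun h V G hG =>
    (key #V).2 (fun κ hκ h1 _ => h κ hκ h1) V G le_rfl hG⟩, key⟩

end Pool.Agent.Results.MP_783f50_lc.AlephOneMinors
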