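import Pool.Agent.W910.NS.All3
import Pool.Agent.W910.LC.Main

/-!
# Obstructions of size `ℵ₁` for normal spanning trees: consistency from a supercompact cardinal

Every connected graph without a normal spanning tree contains, as a minor with countable branch
sets, an `(ℵ₀, ℵ₁)`-graph or an `(ω₁, S)`-graph for some stationary `S ⊆ ω₁`, if and only if
`ADS⁻(κ)` fails for all regular `κ > ω₁`; and this is forced by the Levy collapse of a supercompact
cardinal to `ω₂`. The definitions used are those of `Pool.Agent.W910.NS.Off`,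
`Pool.Agent.W910.NS.Off2` and `Pool.Agent.W910.LC.Defs`.
-/

set_option autoImplicit false

namespace Pool.Agent.Results.MP_783f50_lc.CollapseConsistency

open Pool.Agent.W910.NS Pool.Agent.W910.LC
open Cardinal

universe u

theorem result :
    ((∀ (V : Type u) (G : SimpleGraph V), G.Connected →
        HasNormalSpanningTree G ∨ SmallObstruction G) ↔
      ∀ κ : Cardinal.{u}, κ.IsRegular → ℵ₁ < κ → ¬ ADSm κ) ∧
    ∀ κ : Cardinal.{u}, Supercompact κ → ∀ l : Cardinal.{u}, ℵ₁ < l → ∀ p : Col κ,
      ForcesRegular l.ord.ToType p → ¬ ForcesADS l.ord.ToType p :=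
  ⟨⟨fun h κ hκ h1 hA => All2.conv κ hκ h1 hA h,
      fun h V G hG => All3.adsUpTo #V (fun κ hκ h1 _ => h κ hκ h1) V G le_rfl hG⟩,
    fun κ hκ l hl p hr => main κ hκ l hl p hr⟩

end Pool.Agent.Results.MP_783f50_lc.CollapseConsistency
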